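import Mathlib

/-! Rotation invariance of Gaussian measures: two independent copies, and matrices with
independent standard Gaussian entries. -/

set_option autoImplicit false

open MeasureTheory ProbabilityTheory
open scoped RealInnerProductSpace

namespace Pool.Agent.SST

section General

variable {E F : Type*} [NormedAddCommGroup E] [InnerProductSpace ℝ E] [FiniteDimensional ℝ E]
  [MeasurableSpace E] [BorelSpace E] [NormedAddCommGroup F] [InnerProductSpace ℝ F]
  [FiniteDimensional ℝ F] [MeasurableSpace F] [BorelSpace F]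

/-- two independent standard Gaussian vectors form a standard Gaussian vector -/
theorem prod_stdGaussian :
    ((stdGaussian E).prod (stdGaussian F)).map (WithLp.toLp 2)
      = stdGaussian (WithLp 2 (E × F)) := by
  apply Measure.ext_of_charFun (E := WithLp 2 (E × F))
  ext t
  rw [charFun_prod, charFun_stdGaussian, charFun_stdGaussian, charFun_stdGaussian,
    ← Complex.exp_add]
  congr 1
  have h := WithLp.prod_norm_sq_eq_of_L2 t
  have h' : (‖t‖ : ℂ) ^ 2 = (‖(WithLp.ofLp t).1‖ : ℂ) ^ 2 + (‖(WithLp.ofLp t).2‖ : ℂ) ^ 2 := by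
    exact_mod_cast h
  rw [h']
  ring

theorem prod_stdGaussian_isometry (L : WithLp 2 (E × F) ≃ₗᵢ[ℝ] WithLp 2 (E × F)) :
    MeasurePreserving (fun p : E × F => (WithLp.ofLp (L (WithLp.toLp 2 p)) : E × F))
      ((stdGaussian E).prod (stdGaussian F)) ((stdGaussian E).prod (stdGaussian F)) := by
  have hm : Measurable (fun p : E × F => (WithLp.ofLp (L (WithLp.toLp 2 p)) : E × F)) := by
    fun_prop
  refine ⟨hm, ?_⟩
  have h1 : ((stdGaussian E).prod (stdGaussian F))
      = (stdGaussian (WithLp 2 (E × F))).map (WithLp.ofLp) := by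
    rw [← prod_stdGaussian, Measure.map_map (by fun_prop) (by fun_prop)]
    have : (WithLp.ofLp ∘ WithLp.toLp 2 : E × F → E × F) = id := rfl
    rw [this, Measure.map_id]
  conv_lhs => rw [h1]
  rw [Measure.map_map hm (by fun_prop)]
  have h2 : ((fun p : E × F => (WithLp.ofLp (L (WithLp.toLp 2 p)) : E × F)) ∘ WithLp.ofLp)
      = (WithLp.ofLp ∘ L : WithLp 2 (E × F) → E × F) := by
    funext p; rfl
  rw [h2, ← Measure.map_map (by fun_prop) (by fun_prop), stdGaussian_map, ← h1]

/-- a linear map of `E × E` which preserves `‖x‖² + ‖y‖²` preserves two independent standard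
Gaussian vectors -/
theorem prod_stdGaussian_linear (f : E × E →ₗ[ℝ] E × E)
    (hf : ∀ p : E × E, ‖(f p).1‖ ^ 2 + ‖(f p).2‖ ^ 2 = ‖p.1‖ ^ 2 + ‖p.2‖ ^ 2) :
    MeasurePreserving (fun p : E × E => f p)
      ((stdGaussian E).prod (stdGaussian E)) ((stdGaussian E).prod (stdGaussian E)) := by
  set g : WithLp 2 (E × E) →ₗ[ℝ] WithLp 2 (E × E) :=
    (WithLp.linearEquiv 2 ℝ (E × E)).symm.toLinearMap ∘ₗ f ∘ₗ
      (WithLp.linearEquiv 2 ℝ (E × E)).toLinearMap with hg
  have hg' : ∀ p : WithLp 2 (E × E), g p = WithLp.toLp 2 (f (WithLp.ofLp p)) := fun p => rfl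
  have hnorm : ∀ p : WithLp 2 (E × E), ‖g p‖ = ‖p‖ := by
    intro p
    have h1 : ‖g p‖ ^ 2 = ‖p‖ ^ 2 := by
      rw [WithLp.prod_norm_sq_eq_of_L2, WithLp.prod_norm_sq_eq_of_L2, hg']
      exact hf (WithLp.ofLp p)
    have h3 := norm_nonneg (g p)
    have h4 := norm_nonneg p
    nlinarith [sq_nonneg (‖g p‖ - ‖p‖)]
  exact prod_stdGaussian_isometry (LinearIsometry.toLinearIsometryEquiv ⟨g, hnorm⟩ rfl)

/-- two independent standard Gaussian vectors, rotated in the direction `w` -/
theorem rot_preserving' {w : E} (hw : ‖w‖ = 1) (θ : ℝ) :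
    MeasurePreserving (fun p : E × E =>
      (p.1 + ((Real.cos θ - 1) * ⟪w, p.1⟫ + Real.sin θ * ⟪w, p.2⟫) • w,
       p.2 + ((Real.cos θ - 1) * ⟪w, p.2⟫ - Real.sin θ * ⟪w, p.1⟫) • w))
      ((stdGaussian E).prod (stdGaussian E)) ((stdGaussian E).prod (stdGaussian E)) := by
  refine prod_stdGaussian_linear
    { toFun := fun p : E × E =>
        (p.1 + ((Real.cos θ - 1) * ⟪w, p.1⟫ + Real.sin θ * ⟪w, p.2⟫) • w,
         p.2 + ((Real.cos θ - 1) * ⟪w, p.2⟫ - Real.sin θ * ⟪w, p.1⟫) • w)
      map_add' := ?_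
      map_smul' := ?_ } ?_
  · intro p q
    ext <;> simp only [Prod.fst_add, Prod.snd_add, inner_add_right] <;> module
  · intro c p
    ext <;> simp only [Prod.smul_fst, Prod.smul_snd, real_inner_smul_right, RingHom.id_apply]
      <;> module
  · intro p
    simp only [LinearMap.coe_mk, AddHom.coe_mk]
    rw [norm_add_sq_real, norm_add_sq_real, norm_smul, norm_smul, hw, real_inner_smul_right,
      real_inner_smul_right, real_inner_comm w, real_inner_comm w]
    simp only [mul_one, Real.norm_eq_abs, sq_abs]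
    have h2 := Real.sin_sq_add_cos_sq θ
    set a := ⟪w, p.1⟫
    set b := ⟪w, p.2⟫
    linear_combination (a ^ 2 + b ^ 2) * h2

/-- `(x, y) ↦ (cos θ x + sin θ y, cos θ y - sin θ x)` preserves two independent standard Gaussian
vectors -/
theorem rotPair_preserving (θ : ℝ) :
    MeasurePreserving (fun p : E × E =>
      (Real.cos θ • p.1 + Real.sin θ • p.2, Real.cos θ • p.2 - Real.sin θ • p.1))
      ((stdGaussian E).prod (stdGaussian E)) ((stdGaussian E).prod (stdGaussian E)) := by
  refine prod_stdGaussian_linear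
    { toFun := fun p : E × E =>
        (Real.cos θ • p.1 + Real.sin θ • p.2, Real.cos θ • p.2 - Real.sin θ • p.1)
      map_add' := ?_
      map_smul' := ?_ } ?_
  · intro p q
    ext <;> simp only [Prod.fst_add, Prod.snd_add] <;> module
  · intro c p
    ext <;> simp only [Prod.smul_fst, Prod.smul_snd, RingHom.id_apply] <;> module
  · intro p
    simp only [LinearMap.coe_mk, AddHom.coe_mk]
    rw [norm_add_sq_real, norm_sub_sq_real, norm_smul, norm_smul, norm_smul, norm_smul,
      real_inner_smul_right, real_inner_smul_right, real_inner_smul_left, real_inner_smul_left,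
      real_inner_comm p.1]
    have h2 := Real.sin_sq_add_cos_sq θ
    simp only [mul_pow, Real.norm_eq_abs, sq_abs]
    linear_combination (‖p.1‖ ^ 2 + ‖p.2‖ ^ 2) * h2

end General

section Pi

variable {ι : Type*} [Fintype ι] [DecidableEq ι]

/-- the product Gaussian on `ι → ℝ` is invariant under orthogonal matrices -/
theorem pi_orthogonal (O : Matrix ι ι ℝ) (hO : O ∈ Matrix.orthogonalGroup ι ℝ) :
    MeasurePreserving (fun x : ι → ℝ => O.mulVec x)
      (Measure.pi (fun _ : ι => gaussianReal 0 1)) (Measure.pi (fun _ : ι => gaussianReal 0 1)) := by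
  have hm : Measurable (fun x : ι → ℝ => O.mulVec x) := by
    apply Continuous.measurable
    fun_prop
  refine ⟨hm, ?_⟩
  have hnorm : ∀ x : EuclideanSpace ℝ ι, ‖Matrix.toEuclideanLin O x‖ = ‖x‖ := by
    intro x
    have h1 : ‖Matrix.toEuclideanLin O x‖ ^ 2 = ‖x‖ ^ 2 := by
      rw [EuclideanSpace.real_norm_sq_eq, EuclideanSpace.real_norm_sq_eq]
      have h2 : ∀ y : ι → ℝ, ∑ i, y i ^ 2 = y ⬝ᵥ y := by
        intro y; simp [dotProduct, sq]
      rw [h2, h2]
      have h3 : (Matrix.toEuclideanLin O x).ofLp = O.mulVec x.ofLp := by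
        simp [Matrix.toLpLin_apply]
      rw [h3, Matrix.dotProduct_mulVec, Matrix.vecMul_mulVec]
      have h4 : O.transpose * O = 1 := (Matrix.mem_orthogonalGroup_iff' ι ℝ).mp hO
      rw [h4]; simp
    have h3 := norm_nonneg (Matrix.toEuclideanLin O x)
    have h4 := norm_nonneg x
    nlinarith [sq_nonneg (‖Matrix.toEuclideanLin O x‖ - ‖x‖)]
  set L : EuclideanSpace ℝ ι ≃ₗᵢ[ℝ] EuclideanSpace ℝ ι :=
    LinearIsometry.toLinearIsometryEquiv ⟨Matrix.toEuclideanLin O, hnorm⟩ rfl with hL
  have h1 : (Measure.pi (fun _ : ι => gaussianReal 0 1))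
      = (stdGaussian (EuclideanSpace ℝ ι)).map (WithLp.ofLp) := by
    rw [← map_pi_eq_stdGaussian, Measure.map_map (by fun_prop) (by fun_prop)]
    have : (WithLp.ofLp ∘ WithLp.toLp 2 : (ι → ℝ) → (ι → ℝ)) = id := rfl
    rw [this, Measure.map_id]
  conv_lhs => rw [h1]
  rw [Measure.map_map hm (by fun_prop)]
  have h2 : ((fun x : ι → ℝ => O.mulVec x) ∘ WithLp.ofLp : EuclideanSpace ℝ ι → ι → ℝ)
      = WithLp.ofLp ∘ L := by
    funext p
    simp [hL, Matrix.toLpLin_apply]
  rw [h2, ← Measure.map_map (by fun_prop) (by fun_prop), stdGaussian_map, ← h1]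

end Pi

end Pool.Agent.SST
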