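import Mathlib

/-! A trigonometric polynomial of degree at most two has at most four zeros in a period. -/

set_option autoImplicit false

namespace Pool.Agent.SST

open Polynomial

/-- the polynomial of degree at most four attached to a trigonometric polynomial -/
noncomputable def trigPoly (c0 c1 c2 c3 c4 c5 : ℝ) : ℂ[X] :=
  C (4 * (c0 : ℂ)) * X ^ 2 + C (2 * (c1 : ℂ)) * (X ^ 3 + X) - C (2 * Complex.I * (c2 : ℂ)) * (X ^ 3 - X)
    + C (c3 : ℂ) * (X ^ 2 + 1) ^ 2 - C (Complex.I * (c4 : ℂ)) * (X ^ 4 - 1)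
    - C (c5 : ℂ) * (X ^ 2 - 1) ^ 2

theorem trigPoly_natDegree (c0 c1 c2 c3 c4 c5 : ℝ) :
    (trigPoly c0 c1 c2 c3 c4 c5).natDegree ≤ 4 := by
  unfold trigPoly
  compute_degree

theorem trigPoly_eval (c0 c1 c2 c3 c4 c5 θ : ℝ) :
    (trigPoly c0 c1 c2 c3 c4 c5).eval (Complex.exp (θ * Complex.I)) =
      4 * Complex.exp (θ * Complex.I) ^ 2 *
        ((c0 + c1 * Real.cos θ + c2 * Real.sin θ + c3 * Real.cos θ ^ 2
        + c4 * (Real.cos θ * Real.sin θ) + c5 * Real.sin θ ^ 2 : ℝ) : ℂ) := by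
  have h1 : Complex.exp (θ * Complex.I) = Real.cos θ + Real.sin θ * Complex.I := by
    rw [Complex.exp_mul_I]; push_cast; ring
  have h2 : (Real.cos θ : ℂ) ^ 2 + (Real.sin θ : ℂ) ^ 2 = 1 := by
    norm_cast; linarith [Real.sin_sq_add_cos_sq θ]
  unfold trigPoly
  simp only [eval_add, eval_sub, eval_mul, eval_C, eval_pow, eval_X, eval_one]
  rw [h1]
  push_cast
  set x : ℂ := (Complex.cos (θ : ℂ)) with hx
  set y : ℂ := (Complex.sin (θ : ℂ)) with hy
  have h3 : x ^ 2 + y ^ 2 = 1 := by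
    have := h2
    push_cast at this
    exact this
  have hI : Complex.I ^ 2 = -1 := Complex.I_sq
  have e1 : (x + y * Complex.I) ^ 2 + 1 = 2 * x * (x + y * Complex.I) := by
    linear_combination (-1 : ℂ) * h3 + y ^ 2 * hI
  have e2 : (x + y * Complex.I) ^ 2 - 1 = 2 * y * Complex.I * (x + y * Complex.I) := by
    linear_combination (1 : ℂ) * h3 - y ^ 2 * hI
  have e3 : (x + y * Complex.I) ^ 4 - 1
      = (2 * x * (x + y * Complex.I)) * (2 * y * Complex.I * (x + y * Complex.I)) := by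
    rw [← e1, ← e2]; ring
  have e4 : (x + y * Complex.I) ^ 3 + (x + y * Complex.I)
      = (x + y * Complex.I) * (2 * x * (x + y * Complex.I)) := by
    rw [← e1]; ring
  have e5 : (x + y * Complex.I) ^ 3 - (x + y * Complex.I)
      = (x + y * Complex.I) * (2 * y * Complex.I * (x + y * Complex.I)) := by
    rw [← e2]; ring
  rw [e1, e2, e3, e4, e5]
  linear_combination (-4 * (c2 : ℂ) * y * (x + y * Complex.I) ^ 2
    - 4 * (c4 : ℂ) * x * y * (x + y * Complex.I) ^ 2
    - 4 * (c5 : ℂ) * y ^ 2 * (x + y * Complex.I) ^ 2) * hI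

theorem trig2 {c0 c1 c2 c3 c4 c5 : ℝ} {Z : Finset ℝ}
    (hZ : ∀ θ ∈ Z, θ ∈ Set.Ico 0 (2 * Real.pi) ∧
      c0 + c1 * Real.cos θ + c2 * Real.sin θ + c3 * Real.cos θ ^ 2
        + c4 * (Real.cos θ * Real.sin θ) + c5 * Real.sin θ ^ 2 = 0)
    (hcard : 4 < Z.card) (θ : ℝ) :
      c0 + c1 * Real.cos θ + c2 * Real.sin θ + c3 * Real.cos θ ^ 2
        + c4 * (Real.cos θ * Real.sin θ) + c5 * Real.sin θ ^ 2 = 0 := by
  classical
  have hinj : Set.InjOn (fun t : ℝ => Complex.exp (t * Complex.I)) (Z : Set ℝ) := by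
    intro a ha b hb hab
    have ha' := (hZ a ha).1
    have hb' := (hZ b hb).1
    simp only at hab
    rw [Complex.exp_eq_exp_iff_exists_int] at hab
    obtain ⟨k, hk⟩ := hab
    have hk' : a = b + k * (2 * Real.pi) := by
      have := congrArg Complex.im hk
      simpa using this
    have hpi := Real.pi_pos
    have h1 : (k : ℝ) < 1 := by
      by_contra h
      push Not at h
      nlinarith [ha'.2, hb'.1]
    have h2 : (-1 : ℝ) < k := by
      by_contra h
      push Not at h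
      nlinarith [ha'.1, hb'.2]
    have h3 : k = 0 := by
      have h1' : k < 1 := by exact_mod_cast h1
      have h2' : -1 < k := by exact_mod_cast h2
      omega
    rw [hk', h3]; simp
  have hp : trigPoly c0 c1 c2 c3 c4 c5 = 0 := by
    apply Polynomial.eq_zero_of_natDegree_lt_card_of_eval_eq_zero' _
      (Z.image (fun t : ℝ => Complex.exp (t * Complex.I)))
    · intro z hz
      rw [Finset.mem_image] at hz
      obtain ⟨t, ht, rfl⟩ := hz
      rw [trigPoly_eval, (hZ t ht).2]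
      simp
    · rw [Finset.card_image_of_injOn hinj]
      exact lt_of_le_of_lt (trigPoly_natDegree _ _ _ _ _ _) hcard
  have h := trigPoly_eval c0 c1 c2 c3 c4 c5 θ
  rw [hp, eval_zero] at h
  have h4 : (4 : ℂ) * Complex.exp (θ * Complex.I) ^ 2 ≠ 0 := by
    simp [Complex.exp_ne_zero]
  have h5 := (mul_eq_zero.mp h.symm).resolve_left h4
  exact_mod_cast h5

/-- the finite-set form -/
theorem trig2_ncard {c0 c1 c2 c3 c4 c5 : ℝ}
    (hne : ∃ θ : ℝ, c0 + c1 * Real.cos θ + c2 * Real.sin θ + c3 * Real.cos θ ^ 2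
        + c4 * (Real.cos θ * Real.sin θ) + c5 * Real.sin θ ^ 2 ≠ 0) :
    {θ : ℝ | θ ∈ Set.Ico 0 (2 * Real.pi) ∧ c0 + c1 * Real.cos θ + c2 * Real.sin θ
        + c3 * Real.cos θ ^ 2 + c4 * (Real.cos θ * Real.sin θ)
        + c5 * Real.sin θ ^ 2 = 0}.encard ≤ 4 := by
  classical
  by_contra h
  push Not at h
  have h5 : (5 : ℕ∞) ≤ {θ : ℝ | θ ∈ Set.Ico 0 (2 * Real.pi) ∧ c0 + c1 * Real.cos θ
        + c2 * Real.sin θ + c3 * Real.cos θ ^ 2 + c4 * (Real.cos θ * Real.sin θ)
        + c5 * Real.sin θ ^ 2 = 0}.encard := by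
    have h45 : (4 : ℕ∞) + 1 = 5 := by norm_num
    rw [← h45]
    exact Order.add_one_le_of_lt h
  obtain ⟨t, hts, htc⟩ := Set.exists_subset_encard_eq h5
  have hfin : t.Finite := Set.finite_of_encard_eq_coe htc
  obtain ⟨θ, hθ⟩ := hne
  apply hθ
  apply trig2 (Z := hfin.toFinset)
  · intro x hx
    exact hts (by simpa using hx)
  · have : (hfin.toFinset.card : ℕ∞) = 5 := by
      rw [← hfin.encard_eq_coe_toFinset_card]; exact htc
    have h6 : hfin.toFinset.card = 5 := by exact_mod_cast this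
    omega

end Pool.Agent.SST
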